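import Pool.Agent.Q73.Vor.Final

/-!
# MP_814f17_an: Voronovskaja-type estimate for complex bivariate Bernstein polynomials
-/

set_option autoImplicit false

open Finset

namespace Pool.Agent.Results.MP_814f17_an.Voronovskaja

/-- `f` is analytic on the polydisk `|w₁| < R₁`, `|w₂| < R₂`: it is the sum of a double power series
converging at every point of the polydisk -/
def AnalyticOnPolydisk (R₁ R₂ : ℝ) (f : ℂ → ℂ → ℂ) : Prop :=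
  ∃ a : ℕ × ℕ → ℂ, ∀ w₁ w₂ : ℂ, ‖w₁‖ < R₁ → ‖w₂‖ < R₂ →
    HasSum (fun p : ℕ × ℕ => a p * (w₁ ^ p.1 * w₂ ^ p.2)) (f w₁ w₂)

/-- the bivariate Bernstein polynomial on the simplex, at complex arguments -/
noncomputable def bernstein (n : ℕ) (f : ℂ → ℂ → ℂ) (w₁ w₂ : ℂ) : ℂ :=
  ∑ k ∈ range (n + 1), ∑ j ∈ range (n - k + 1),
    ((n.factorial : ℂ) / ((k.factorial : ℂ) * (j.factorial : ℂ) * ((n - k - j).factorial : ℂ))) *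
      w₁ ^ k * w₂ ^ j * (1 - w₁ - w₂) ^ (n - k - j) * f ((k : ℂ) / n) ((j : ℂ) / n)

/-- `∂²f/∂w₁²` -/
noncomputable def f11 (f : ℂ → ℂ → ℂ) (w₁ w₂ : ℂ) : ℂ := deriv (fun s => deriv (fun t => f t w₂) s) w₁

/-- `∂²f/∂w₁∂w₂` -/
noncomputable def f12 (f : ℂ → ℂ → ℂ) (w₁ w₂ : ℂ) : ℂ := deriv (fun s => deriv (fun t => f s t) w₂) w₁

/-- `∂²f/∂w₂²` -/
noncomputable def f22 (f : ℂ → ℂ → ℂ) (w₁ w₂ : ℂ) : ℂ := deriv (fun s => deriv (fun t => f w₁ t) s) w₂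

/-- the remainder `E_n(f)` -/
noncomputable def remainder (n : ℕ) (f : ℂ → ℂ → ℂ) (w₁ w₂ : ℂ) : ℂ :=
  bernstein n f w₁ w₂ - f w₁ w₂ - 1 / (2 * (n : ℂ)) *
    (w₁ * (1 - w₁) * f11 f w₁ w₂ - 2 * w₁ * w₂ * f12 f w₁ w₂ + w₂ * (1 - w₂) * f22 f w₁ w₂)

/-- **Q1 of MP_814f17_an.** For all `R₁, R₂ > 1`, every `f` analytic on the polydisk of radii
`R₁, R₂` and all `1 ≤ ρᵢ < Rᵢ` there is a constant `C` with `|E_n(f)| ≤ C / n²` on the closed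
polydisk of radii `ρ₁, ρ₂`, for every `n ≥ 1`. -/
theorem result (R₁ R₂ : ℝ) (_ : 1 < R₁) (_ : 1 < R₂) (f : ℂ → ℂ → ℂ)
    (hf : AnalyticOnPolydisk R₁ R₂ f) (ρ₁ ρ₂ : ℝ) (h₁ : 1 ≤ ρ₁) (h₁' : ρ₁ < R₁) (h₂ : 1 ≤ ρ₂)
    (h₂' : ρ₂ < R₂) :
    ∃ C : ℝ, ∀ n : ℕ, 1 ≤ n → ∀ w₁ w₂ : ℂ, ‖w₁‖ ≤ ρ₁ → ‖w₂‖ ≤ ρ₂ →
      ‖remainder n f w₁ w₂‖ ≤ C / (n : ℝ) ^ 2 := by
  obtain ⟨a, ha⟩ := hf
  exact Q73.Vor.final ha h₁ h₁' h₂ h₂'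

end Pool.Agent.Results.MP_814f17_an.Voronovskaja
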